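import Pool.Agent.H620R2.Gauge.Defs
import Pool.Agent.H628R3.RO.Defs

/-!
# Sparse sets, modifications of oracles on a set of strings, parity polynomial time
-/

namespace Pool.Agent.H249R3.Sub

open Pool.Agent.NPC Pool.Agent.H620R2.Gauge

/-- The set `D` of strings is sparse: the number of its elements of length at most `n` is bounded
by a polynomial in `n`. -/
def Sparse (D : Set (List Bool)) : Prop :=
  ∃ p : Polynomial ℕ, ∀ n : ℕ, {w : List Bool | w ∈ D ∧ w.length ≤ n}.ncard ≤ p.eval n

open Classical in
/-- The oracle which agrees with `R` on `D` and with `B` outside `D`. -/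
noncomputable def patch (D : Set (List Bool)) (R B : Oracle) : Oracle :=
  fun w => if w ∈ D then R w else B w

/-- The language `L` is in parity polynomial time relative to the oracle `A`: `x` is in `L` if and
only if the number of the strings `w` of polynomially bounded length with `V ⟨x, w⟩ = [true]` is
odd, for some `V` computable in polynomial time relative to `A`. -/
def IsParityP (A : Oracle) (L : Set (List Bool)) : Prop :=
  ∃ (V : List Bool → List Bool) (p : Polynomial ℕ), IsFP A V ∧
    ∀ x, x ∈ L ↔ Odd {w : List Bool | w.length ≤ p.eval x.length ∧
      V (pairBits x w) = [true]}.ncard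

end Pool.Agent.H249R3.Sub
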