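import Mathlib

/-!
# Many disjoint cylinders with many elements
-/

namespace Pool.Agent.H249R3.Sub

open Finset

/-- the prefixes of length `i` of many elements of `S` -/
def heavy (S : Finset (List Bool)) (M i : ℕ) : Finset (List Bool) :=
  (S.image (List.take i)).filter (fun y => M ≤ (S.filter (fun w => w.take i = y)).card)

/-- the elements with a heavy prefix of length `i` -/
def under (S : Finset (List Bool)) (M i : ℕ) : Finset (List Bool) :=
  S.filter (fun w => w.take i ∈ heavy S M i)

theorem mem_heavy {S : Finset (List Bool)} {M i : ℕ} {w : List Bool} (hw : w ∈ S) :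
    w.take i ∈ heavy S M i ↔ M ≤ (S.filter (fun v => v.take i = w.take i)).card := by
  unfold heavy
  rw [mem_filter]
  exact ⟨fun h => h.2, fun h => ⟨mem_image_of_mem _ hw, h⟩⟩

theorem lost {S : Finset (List Bool)} {n M i : ℕ} (hS : ∀ w ∈ S, w.length = n) (hi : i < n) :
    (under S M i).card ≤ (under S M (i + 1)).card + 2 * M * (heavy S M i).card := by
  have h1 : under S M i ⊆ under S M (i + 1) ∪ (heavy S M i).biUnion (fun y =>
      (univ : Finset Bool).biUnion (fun b => if M ≤ (S.filter (fun w => w.take (i + 1) =
        y ++ [b])).card then ∅ else S.filter (fun w => w.take (i + 1) = y ++ [b]))) := by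
    intro w hw
    unfold under at hw
    rw [mem_filter] at hw
    rw [mem_union]
    by_cases h : w.take (i + 1) ∈ heavy S M (i + 1)
    · exact Or.inl (mem_filter.2 ⟨hw.1, h⟩)
    · right
      rw [mem_heavy hw.1] at h
      have hlen := hS w hw.1
      have hlt : i < w.length := by omega
      have h2 : w.take (i + 1) = w.take i ++ [w[i]] := by
        rw [List.take_succ_eq_append_getElem hlt]
      rw [mem_biUnion]
      refine ⟨w.take i, hw.2, ?_⟩
      rw [mem_biUnion]
      refine ⟨w[i], mem_univ _, ?_⟩
      rw [← h2, if_neg h, mem_filter]
      exact ⟨hw.1, rfl⟩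
  refine (card_le_card h1).trans ((card_union_le _ _).trans ?_)
  refine Nat.add_le_add_left ?_ _
  refine card_biUnion_le.trans ?_
  rw [mul_comm (2 * M), ← smul_eq_mul, ← sum_const]
  refine sum_le_sum fun y _ => card_biUnion_le.trans ?_
  rw [Fintype.sum_bool]
  have h3 : ∀ b : Bool, (if M ≤ (S.filter (fun w => w.take (i + 1) =
        y ++ [b])).card then (∅ : Finset (List Bool))
        else S.filter (fun w => w.take (i + 1) = y ++ [b])).card ≤ M := by
    intro b
    split_ifs with h
    · simp
    · exact (not_le.1 h).le
  have h4 := h3 true
  have h5 := h3 false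
  omega

/-- Among more than `M + 2 M n K` strings of length `n` there are at least `M` with the same prefix
`y`, for at least `K` prefixes `y` of the same length. -/
theorem exists_heavy (S : Finset (List Bool)) (n M K : ℕ) (hS : ∀ w ∈ S, w.length = n)
    (hM : 2 ≤ M) (hcard : M + 2 * M * n * K < S.card) :
    ∃ i ≤ n, ∃ X : Finset (List Bool), X.card = K ∧ ∀ y ∈ X, y.length = i ∧
      M ≤ (S.filter (fun w => w.take i = y)).card := by
  by_contra hcon
  have hlt : ∀ i ≤ n, (heavy S M i).card < K := by
    intro i hi
    by_contra h
    push Not at h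
    obtain ⟨X, hX, hXK⟩ := exists_subset_card_eq h
    apply hcon
    refine ⟨i, hi, X, hXK, fun y hy => ?_⟩
    have h1 := hX hy
    unfold heavy at h1
    rw [mem_filter, mem_image] at h1
    obtain ⟨⟨w, hw, hwy⟩, h2⟩ := h1
    refine ⟨?_, h2⟩
    rw [← hwy, List.length_take, hS w hw]
    omega
  have key : ∀ i ≤ n, S.card ≤ (under S M i).card + 2 * M * i * K := by
    intro i
    induction i with
    | zero =>
      intro _
      have : under S M 0 = S := by
        unfold under
        rw [filter_eq_self]
        intro w hw
        rw [mem_heavy hw]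
        simp only [List.take_zero, filter_true]
        omega
      rw [this]
      omega
    | succ i ih =>
      intro hi
      have h1 := ih (by omega)
      have h2 := lost (M := M) hS (i := i) (by omega)
      have h3 := hlt i (by omega)
      have h4 : 2 * M * (heavy S M i).card ≤ 2 * M * K := Nat.mul_le_mul_left _ h3.le
      have h5 : 2 * M * (i + 1) * K = 2 * M * i * K + 2 * M * K := by ring
      omega
  have h1 := key n le_rfl
  have h2 : under S M n = ∅ := by
    unfold under
    rw [filter_eq_empty_iff]
    intro w hw
    rw [mem_heavy hw, not_le]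
    have h3 : S.filter (fun v => v.take n = w.take n) ⊆ {w} := by
      intro v hv
      rw [mem_filter] at hv
      rw [List.take_of_length_le (hS v hv.1).le, List.take_of_length_le (hS w hw).le] at hv
      rw [mem_singleton]
      exact hv.2
    have h4 := card_le_card h3
    rw [card_singleton] at h4
    omega
  rw [h2, card_empty] at h1
  omega

end Pool.Agent.H249R3.Sub
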