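import Pool.Agent.H620R2.Gauge.Cover
import Pool.Agent.H249R3.Sub.Defs
import Pool.Agent.H249R3.Sub.Tree

/-!
# Oracle algorithms with a modified oracle are shallow decision trees
-/

namespace Pool.Agent.H249R3.Sub

open Pool.Agent.NPC Finset H568R2 Pool.Agent.H676 Pool.Agent.H620R2.Gauge

variable (D : Set (List Bool)) (B : Oracle)

theorem patch_of_mem {w : List Bool} (h : w ∈ D) (R : Oracle) : patch D R B w = R w := by
  simp [patch, h]

theorem patch_of_not_mem {w : List Bool} (h : w ∉ D) (R : Oracle) : patch D R B w = B w := by
  simp [patch, h]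

theorem dtr_run' (M : Alg) (N : ℕ) (y : List Bool) : ∀ (n : ℕ) (acc : List Bool),
    DTr n (fun a : Fin N → Bool =>
      decide (M.run (patch D (orc N a) B) y n acc = some [true])) := by
  intro n
  induction n with
  | zero =>
    intro acc
    exact ⟨false, fun a => by simp [Alg.run]⟩
  | succ n ih =>
    intro acc
    rcases hq : M.D (pairBits y acc) with _ | ⟨c, q⟩
    · exact DTr.const ⟨false, fun a => by simp [Alg.run, hq]⟩
    · cases c with
      | true => exact DTr.const ⟨decide (q = [true]), fun a => by simp [Alg.run, hq]⟩
      | false =>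
        by_cases hD : q ∈ D
        · by_cases hN : idx q < N
          · refine Or.inr ⟨⟨idx q, hN⟩, fun b => ?_⟩
            have h1 := DTr_update (ih (acc ++ [b])) ⟨idx q, hN⟩ b
            have h2 : (fun a : Fin N → Bool => decide (M.run (patch D (orc N (Function.update a
                ⟨idx q, hN⟩ b)) B) y (n + 1) acc = some [true])) = fun a => decide (M.run
                (patch D (orc N (Function.update a ⟨idx q, hN⟩ b)) B) y n (acc ++ [b]) =
                some [true]) := by
              funext a
              simp only [Alg.run, hq, patch_of_mem D B hD, orc_update]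
            rw [h2]
            exact h1
          · have h2 : (fun a : Fin N → Bool => decide (M.run (patch D (orc N a) B) y (n + 1) acc =
                some [true])) = fun a => decide (M.run (patch D (orc N a) B) y n (acc ++ [false]) =
                some [true]) := by
              funext a
              have : orc N a q = false := by simp [orc, hN]
              simp only [Alg.run, hq, patch_of_mem D B hD, this]
            rw [h2]
            exact (ih (acc ++ [false])).succ
        · have h2 : (fun a : Fin N → Bool => decide (M.run (patch D (orc N a) B) y (n + 1) acc =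
              some [true])) = fun a => decide (M.run (patch D (orc N a) B) y n (acc ++ [B q]) =
              some [true]) := by
            funext a
            simp only [Alg.run, hq, patch_of_not_mem D B hD]
          rw [h2]
          exact (ih (acc ++ [B q])).succ

/-- the leaf functions -/
noncomputable def leafP (M : Alg) (N : ℕ) (y : List Bool) (a : Fin N → Bool) : Bool :=
  decide (M.out (patch D (orc N a) B) y = some [true])

theorem dtr_leafP (M : Alg) (N : ℕ) (y : List Bool) :
    DTr (M.p.eval y.length) (leafP D B M N y) :=
  dtr_run' D B M N y _ []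

/-- flip the bits given by `e` -/
def xorv {I : Type*} (e a : I → Bool) : I → Bool := fun i => e i ^^ a i

theorem xorv_xorv {I : Type*} (e a : I → Bool) : xorv e (xorv e a) = a := by
  funext i
  simp [xorv]

theorem dtr_xorv {I : Type*} [Fintype I] [DecidableEq I] (e : I → Bool) {k : ℕ} :
    ∀ {f : (I → Bool) → Bool}, DTr k f → DTr k (fun a => f (xorv e a)) := by
  induction k with
  | zero => rintro f ⟨c, h⟩; exact ⟨c, fun a => h _⟩
  | succ k ih =>
    intro f h
    rcases h with ⟨c, h⟩ | ⟨i, h⟩
    · exact Or.inl ⟨c, fun a => h _⟩
    · refine Or.inr ⟨i, fun b => ?_⟩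
      have h1 := ih (h (e i ^^ b))
      refine (congrArg (DTr k) (funext fun a => ?_)).mp h1
      show f (Function.update (xorv e a) i (e i ^^ b)) = f (xorv e (Function.update a i b))
      congr 1
      funext j
      unfold xorv
      by_cases hj : j = i
      · subst hj; simp
      · rw [Function.update_of_ne hj, Function.update_of_ne hj]

theorem qf_xorv {I : Type*} (e : I → Bool) (m : ℕ) (F : List Bool → (I → Bool) → Bool) :
    ∀ (k : ℕ) (b : Bool) (y : List Bool) (a : I → Bool),
      QF m (fun y a => F y (xorv e a)) k b y a = QF m F k b y (xorv e a) := by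
  intro k
  induction k with
  | zero => intro b y a; cases b <;> rfl
  | succ k ih =>
    intro b y a
    cases b with
    | true =>
      simp only [QF, decide_eq_decide]
      exact exists_congr fun w => and_congr_right fun _ => by rw [← ih]
    | false =>
      simp only [QF, decide_eq_decide]
      exact forall_congr' fun w => forall_congr' fun _ => by rw [← ih]

theorem ex_xorv {I : Type*} [Fintype I] [DecidableEq I] (e : I → Bool)
    (g : (I → Bool) → ℝ) : Ex unif (fun a => g (xorv e a)) = Ex unif g := by
  unfold Ex unif
  simp only [Finset.prod_const]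
  refine Fintype.sum_equiv ⟨xorv e, xorv e, xorv_xorv e, xorv_xorv e⟩ _ _ fun a => ?_
  rfl

/-- the positions of the strings in `D` of the form `x w` with `|w| = l` -/
noncomputable def blkD (N : ℕ) (x : List Bool) (l : ℕ) : Finset (Fin N) := by
  classical exact univ.filter (fun i => str i ∈ D ∧ ∃ j < 2 ^ l, str i = x ++ bitsOf l j)

open Classical in
/-- the parity of the number of the strings `x w`, `|w| = l`, in `B` and outside `D` -/
noncomputable def cst (x : List Bool) (l : ℕ) : Bool :=
  decide (Odd ((Finset.range (2 ^ l)).filter
    (fun j => x ++ bitsOf l j ∉ D ∧ B (x ++ bitsOf l j) = true)).card)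

open Classical in
theorem blkD_card_filter (N : ℕ) (x : List Bool) (l : ℕ) (hN : 2 ^ (x.length + l + 1) ≤ N + 1)
    (P : List Bool → Prop) [DecidablePred P] :
    ((blkD D N x l).filter (fun i : Fin N => P (str i))).card =
      ((Finset.range (2 ^ l)).filter (fun j => x ++ bitsOf l j ∈ D ∧ P (x ++ bitsOf l j))).card := by
  symm
  have hlen : ∀ j, (x ++ bitsOf l j).length = x.length + l := by
    intro j
    rw [List.length_append, length_bitsOf]
  have hlt : ∀ j, idx (x ++ bitsOf l j) < N := by
    intro j
    have h1 := idx_lt (x ++ bitsOf l j)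
    rw [hlen] at h1
    omega
  refine Finset.card_bij (fun j _ => ⟨idx (x ++ bitsOf l j), hlt j⟩) ?_ ?_ ?_
  · intro j hj
    rw [Finset.mem_filter, Finset.mem_range] at hj
    rw [Finset.mem_filter, blkD, Finset.mem_filter]
    refine ⟨⟨Finset.mem_univ _, ?_, j, hj.1, ?_⟩, ?_⟩
    · show str (idx (x ++ bitsOf l j)) ∈ D
      rw [str_idx]; exact hj.2.1
    · exact str_idx _
    · show P (str (idx (x ++ bitsOf l j)))
      rw [str_idx]; exact hj.2.2
  · intro j hj j' hj' h
    rw [Finset.mem_filter, Finset.mem_range] at hj hj'
    have h1 : idx (x ++ bitsOf l j) = idx (x ++ bitsOf l j') := by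
      simpa using h
    have h2 : x ++ bitsOf l j = x ++ bitsOf l j' := by
      rw [← str_idx (x ++ bitsOf l j), h1, str_idx]
    exact bitsOf_inj hj.1 hj'.1 (List.append_cancel_left h2)
  · intro i hi
    rw [Finset.mem_filter, blkD, Finset.mem_filter] at hi
    obtain ⟨⟨_, hD, j, hj, hij⟩, hP⟩ := hi
    refine ⟨j, ?_, ?_⟩
    · rw [Finset.mem_filter, Finset.mem_range]
      exact ⟨hj, by rw [← hij]; exact hD, by rw [← hij]; exact hP⟩
    · apply Fin.ext
      show idx (x ++ bitsOf l j) = i
      rw [← hij, idx_str]

open Classical in
theorem blkD_card (N : ℕ) (x : List Bool) (l : ℕ) (hN : 2 ^ (x.length + l + 1) ≤ N + 1) :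
    (blkD D N x l).card = ((Finset.range (2 ^ l)).filter (fun j => x ++ bitsOf l j ∈ D)).card := by
  have h := blkD_card_filter D N x l hN (fun _ => True)
  simpa using h

theorem blkD_disj (N : ℕ) (x x' : List Bool) (l : ℕ) (hl : x.length = x'.length) (hne : x ≠ x') :
    Disjoint (blkD D N x l) (blkD D N x' l) := by
  classical
  rw [Finset.disjoint_left]
  intro i hi hi'
  rw [blkD, Finset.mem_filter] at hi hi'
  obtain ⟨_, _, j, _, hj⟩ := hi
  obtain ⟨_, _, j', _, hj'⟩ := hi'
  apply hne
  rw [hj] at hj'
  exact (List.append_inj hj' hl).1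

theorem odd_add_iff_xor (m n : ℕ) : decide (Odd (m + n)) = (decide (Odd m) ^^ decide (Odd n)) := by
  rw [Bool.eq_iff_iff]
  simp only [decide_eq_true_eq, Bool.xor_iff_ne, ne_eq, decide_eq_decide]
  rw [Nat.odd_add, ← Nat.not_even_iff_odd, ← Nat.not_even_iff_odd]
  tauto

/-- the parity of the number of elements of the oracle -/
theorem par_blkD (N : ℕ) (x : List Bool) (l : ℕ) (hN : 2 ^ (x.length + l + 1) ≤ N + 1)
    (R : Oracle) : (par (blkD D N x l) (pre N R) ^^ cst D B x l) =
      decide (Odd ((Finset.range (2 ^ l)).filter
        (fun j => patch D R B (x ++ bitsOf l j) = true)).card) := by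
  classical
  have h := blkD_card_filter D N x l hN (fun y => R y = true)
  have h1 : par (blkD D N x l) (pre N R) = decide (Odd ((Finset.range (2 ^ l)).filter
      (fun j => x ++ bitsOf l j ∈ D ∧ R (x ++ bitsOf l j) = true)).card) := by
    unfold par pre
    rw [← h]
  rw [h1, cst, ← odd_add_iff_xor, ← Finset.card_union_of_disjoint]
  · congr 3
    ext j
    simp only [Finset.mem_union, Finset.mem_filter, Finset.mem_range, patch]
    by_cases hD : x ++ bitsOf l j ∈ D <;> simp [hD]
  · rw [Finset.disjoint_left]
    intro j hj hj'
    rw [Finset.mem_filter] at hj hj'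
    exact hj'.2.1 hj.2.1

end Pool.Agent.H249R3.Sub
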