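import Pool.Agent.H249R3.Sub.Prob
import Pool.Agent.H943R5.GC.N6

/-!
# Random modifications of an oracle on a set which is not sparse
-/

namespace Pool.Agent.H249R3.Sub

open Pool.Agent.NPC Finset H568R2 Pool.Agent.H676 Pool.Agent.H620R2.Gauge
  Pool.Agent.H622R2 MeasureTheory
open Pool.Agent.H628R3.RO (randomOracle)

variable (D : Set (List Bool)) (B : Oracle)

/-- the oracles for which the parameters are good -/
def EasyD (θ : Par) : Set Oracle :=
  {R | ∃ (V : List Bool → List Bool) (h : ℕ → List Bool),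
    (∀ x, θ.M.out (patch D R B) x = some (V x)) ∧ (∀ n, (h n).length ≤ θ.p'.eval n) ∧
    ∀ x, x ∈ cylLang (patch D R B) ↔ Quant (θ.p.eval (pairBits x (h x.length)).length) V θ.k true
      (pairBits x (h x.length))}

theorem mem_easyD_of_phpoly {R : Oracle}
    (h : IsPHpoly (patch D R B) (cylLang (patch D R B))) : ∃ θ, R ∈ EasyD D B θ := by
  obtain ⟨L', h, p', ⟨V, p, k, ⟨M, hM⟩, hL'⟩, hh, hx⟩ := h
  exact ⟨⟨M, p, k, p'⟩, V, h, hM, hh, fun x => (hx x).trans (hL' _)⟩

theorem quant_iff' {m : ℕ} {V : List Bool → List Bool} {I : Type*} {F : List Bool → (I → Bool) → Bool}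
    {a : I → Bool} (ℓ : ℕ) (hV : ∀ y : List Bool, y.length ≤ ℓ → (V y = [true] ↔ F y a = true)) :
    ∀ (k : ℕ) (b : Bool) (y : List Bool), y.length + k * (2 * m + 1) ≤ ℓ →
      (Quant m V k b y ↔ QF m F k b y a = true) := by
  intro k
  induction k with
  | zero =>
    intro b y hy
    cases b <;> simp only [Quant, QF] <;> exact hV y (by omega)
  | succ k ih =>
    intro b y hy
    have hlen : ∀ w : List Bool, w.length ≤ m → (pairBits w y).length + k * (2 * m + 1) ≤ ℓ := by
      intro w hw
      rw [length_pairBits]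
      have : (k + 1) * (2 * m + 1) = k * (2 * m + 1) + (2 * m + 1) := by ring
      omega
    cases b with
    | true =>
      simp only [Quant, QF, decide_eq_true_eq]
      exact exists_congr fun w => and_congr_right fun hw => ih false _ (hlen w hw)
    | false =>
      simp only [Quant, QF, decide_eq_true_eq]
      exact forall_congr' fun w => forall_congr' fun hw => ih true _ (hlen w hw)

theorem evD_of_easy (θ : Par) (i l : ℕ) : ∃ N0 : ℕ, ∀ N, N0 ≤ N →
    2 ^ (i + l + 1) ≤ N + 1 ∧ ∀ R ∈ EasyD D B θ, ∀ X : Finset (List Bool),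
      (∀ x ∈ X, x.length = i) → EvD D B θ N i l X (pre N R) := by
  obtain ⟨qb, hqb⟩ := Alg.out_local θ.M
  set n := 2 * i + 1 + l with hn
  refine ⟨2 ^ (qb.eval (θ.L.eval n) + i + l + 1), fun N hN => ⟨?_, ?_⟩⟩
  · have h4 : 2 ^ (i + l + 1) ≤ 2 ^ (qb.eval (θ.L.eval n) + i + l + 1) :=
      Nat.pow_le_pow_right (by norm_num) (by omega)
    omega
  rintro R ⟨V, h, hM, hh, hx⟩ X hX
  have hV : ∀ y : List Bool, y.length ≤ θ.L.eval n →
      (V y = [true] ↔ leafP D B θ.M N y (pre N R) = true) := by
    intro y hy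
    obtain ⟨Q, _, hQl, hQA⟩ := hqb (patch D R B) y
    have h1 : θ.M.out (patch D (orc N (pre N R)) B) y = θ.M.out (patch D R B) y := by
      apply hQA
      intro q hq
      unfold patch
      split_ifs with hD
      · apply orc_pre
        have h2 := idx_lt q
        have h3 : q.length ≤ qb.eval (θ.L.eval n) := (hQl q hq).trans (eval_mono _ hy)
        have h4 : 2 ^ (q.length + 1) ≤ 2 ^ (qb.eval (θ.L.eval n) + i + l + 1) :=
          Nat.pow_le_pow_right (by norm_num) (by omega)
        omega
      · rfl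
    unfold leafP
    rw [h1, hM y, decide_eq_true_eq, Option.some.injEq]
  refine ⟨(h n).length, hh n, h n, mem_strsOf _, ?_⟩
  intro x hxX
  have hlen : (inp x l).length = n := by rw [length_inp, hX x hxX]
  have h1 := hx (inp x l)
  rw [hlen, length_pairBits, hlen, mem_cylLang_inp] at h1
  have h2 := par_blkD D B N x l (by
    rw [hX x hxX]
    have h4 : 2 ^ (i + l + 1) ≤ 2 ^ (qb.eval (θ.L.eval n) + i + l + 1) :=
      Nat.pow_le_pow_right (by norm_num) (by omega)
    omega) R
  have h3 := quant_iff' (m := θ.m n (h n).length) (F := leafP D B θ.M N) (a := pre N R)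
    (θ.L.eval n) hV θ.k true (pairBits (inp x l) (h n)) (by
      rw [length_pairBits, hlen]
      exact θ.len_le (hh n))
  rw [h2, Bool.eq_iff_iff, ← h3, decide_eq_true_eq, h1]
  rfl

theorem meas_le (N : ℕ) (E : (Fin N → Bool) → Prop) :
    randomOracle {R : Oracle | E (pre N R)} ≤
      ENNReal.ofReal (Ex unif (fun a : Fin N → Bool => by
        classical exact if E a then (1 : ℝ) else 0)) := by
  classical
  have h1 : {R : Oracle | E (pre N R)} ⊆ ⋃ a ∈ (univ.filter E : Finset (Fin N → Bool)),
      Pool.Agent.H943R5.GC.N6.cyl (List.ofFn a) := by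
    intro R hR
    rw [Set.mem_iUnion₂]
    refine ⟨pre N R, by simpa using hR, ?_⟩
    intro i hi
    rw [List.getElem_ofFn]
    rfl
  refine (measure_mono h1).trans ((measure_biUnion_finset_le _ _).trans ?_)
  have h2 : ∀ a ∈ (univ.filter E : Finset (Fin N → Bool)),
      randomOracle (Pool.Agent.H943R5.GC.N6.cyl (List.ofFn a)) = (2⁻¹ : ENNReal) ^ N := by
    intro a _
    have := Pool.Agent.H943R5.GC.N6.meas_cyl (List.ofFn a)
    rw [List.length_ofFn] at this
    exact this
  rw [Finset.sum_congr rfl h2, Finset.sum_const, nsmul_eq_mul]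
  have h3 := card_of_Ex E
  have h4 : Ex unif (fun a : Fin N → Bool => by
        classical exact if E a then (1 : ℝ) else 0) =
      ((univ.filter E : Finset (Fin N → Bool)).card : ℝ) * 2 ^ (-(N : ℝ)) := by
    rw [card_of_Ex]
  rw [h4, ENNReal.ofReal_mul (by positivity), Pool.Agent.H943R5.GC.N6.half_pow,
    ENNReal.ofReal_natCast]

theorem finite_len (n : ℕ) : {w : List Bool | w.length ≤ n}.Finite := by
  have h : {w : List Bool | w.length ≤ n} ⊆
      ((Finset.range (n + 1)).biUnion (fun m => strsOf m) : Finset (List Bool)) := by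
    intro w hw
    rw [Finset.mem_coe, Finset.mem_biUnion]
    exact ⟨w.length, Finset.mem_range.2 (Nat.lt_succ_of_le hw), mem_strsOf w⟩
  exact (Finset.finite_toSet _).subset h

open Classical in
/-- the strings of length `n` in `D` -/
noncomputable def slice (n : ℕ) : Finset (List Bool) := (strsOf n).filter (fun w => w ∈ D)

theorem slice_length {n : ℕ} {w : List Bool} (h : w ∈ slice D n) : w.length = n := by
  classical
  unfold slice at h
  obtain ⟨i, _, rfl⟩ := Finset.mem_image.1 (Finset.mem_filter.1 h).1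
  exact length_bitsOf n i

theorem nonsparse (hD : ¬ Sparse D) (P : Polynomial ℕ) (n0 : ℕ) :
    ∃ n, n0 ≤ n ∧ P.eval n < (slice D n).card := by
  classical
  by_contra hcon
  push Not at hcon
  apply hD
  refine ⟨Polynomial.C (2 ^ (n0 + 1)) + (Polynomial.X + 1) * P, fun n => ?_⟩
  have h1 : {w : List Bool | w ∈ D ∧ w.length ≤ n} ⊆
      (((Finset.range (n0 + 1)).biUnion (fun m => strsOf m) ∪
        (Finset.range (n + 1)).biUnion (fun m => if n0 ≤ m then slice D m else ∅) :
        Finset (List Bool)) : Set (List Bool)) := by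
    rintro w ⟨hw, hn⟩
    rw [Finset.mem_coe, Finset.mem_union, Finset.mem_biUnion, Finset.mem_biUnion]
    by_cases h : n0 ≤ w.length
    · right
      refine ⟨w.length, Finset.mem_range.2 (Nat.lt_succ_of_le hn), ?_⟩
      rw [if_pos h, slice, Finset.mem_filter]
      exact ⟨mem_strsOf w, hw⟩
    · left
      exact ⟨w.length, Finset.mem_range.2 (by omega), mem_strsOf w⟩
  have h2 := Set.ncard_le_ncard h1 (Finset.finite_toSet _)
  rw [Set.ncard_coe_finset] at h2
  refine h2.trans ((Finset.card_union_le _ _).trans ?_)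
  have h3 : ((Finset.range (n0 + 1)).biUnion (fun m => strsOf m)).card ≤ 2 ^ (n0 + 1) := by
    refine Finset.card_biUnion_le.trans ((Finset.sum_le_sum fun m _ => card_strsOf m).trans ?_)
    have : ∀ k : ℕ, ∑ m ∈ Finset.range k, 2 ^ m ≤ 2 ^ k := by
      intro k
      induction k with
      | zero => simp
      | succ k ih => rw [Finset.sum_range_succ, pow_succ]; omega
    exact this _
  have h4 : ((Finset.range (n + 1)).biUnion (fun m => if n0 ≤ m then slice D m else ∅)).card ≤
      (n + 1) * P.eval n := by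
    refine Finset.card_biUnion_le.trans ?_
    have h5 : ∀ m ∈ Finset.range (n + 1),
        (if n0 ≤ m then slice D m else (∅ : Finset (List Bool))).card ≤ P.eval n := by
      intro m hm
      rw [Finset.mem_range] at hm
      split_ifs with h
      · exact (hcon m h).trans (eval_mono _ (by omega))
      · simp
    refine (Finset.sum_le_sum h5).trans ?_
    rw [Finset.sum_const, Finset.card_range, smul_eq_mul]
  simp only [Polynomial.eval_add, Polynomial.eval_C, Polynomial.eval_mul, Polynomial.eval_X,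
    Polynomial.eval_one]
  omega

theorem measure_easyD (hD : ¬ Sparse D) (θ : Par) : randomOracle (EasyD D B θ) = 0 := by
  classical
  -- the polynomials
  set MP : Polynomial ℕ := (TP θ * TP θ + 1) * ((Polynomial.C 24 * TP θ) ^ θ.k *
    (Polynomial.C 4 * TP θ)) with hMP
  have hMPe : ∀ n, MP.eval n = ((TP θ).eval n * (TP θ).eval n + 1) *
      ((24 * (TP θ).eval n) ^ θ.k * (4 * (TP θ).eval n)) := by
    intro n
    simp [hMP]
  have key : ∀ n0 : ℕ, ∃ n, n0 ≤ n ∧ randomOracle (EasyD D B θ) ≤
      ENNReal.ofReal ((θ.k + 2) * (1 / 2) ^ n) := by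
    intro n0
    obtain ⟨n, hn0, hn⟩ := nonsparse D hD (MP + 2 * MP * Polynomial.X * TP θ) n0
    set t := (TP θ).eval n with ht
    have ht4 : 4 ≤ t := by
      have := TP_ge θ (n := n) (m := 0) (by omega)
      omega
    have hM2 : 2 ≤ MP.eval n := by
      rw [hMPe, ← ht]
      have h1 : 1 ≤ (24 * t) ^ θ.k := Nat.one_le_pow _ _ (by omega)
      have h2 : 4 * t ≤ (24 * t) ^ θ.k * (4 * t) := Nat.le_mul_of_pos_left _ h1
      have h3 : (24 * t) ^ θ.k * (4 * t) ≤ (t * t + 1) * ((24 * t) ^ θ.k * (4 * t)) :=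
        Nat.le_mul_of_pos_left _ (by omega)
      omega
    obtain ⟨i, hi, X, hXc, hX⟩ := exists_heavy (slice D n) n (MP.eval n) t
      (fun w hw => slice_length D hw) hM2 (by
        have h1 : (MP + 2 * MP * Polynomial.X * TP θ).eval n =
            MP.eval n + 2 * MP.eval n * n * t := by simp [ht]
        rw [← h1]
        exact hn)
    set l := n - i with hl
    obtain ⟨N0, hN0⟩ := evD_of_easy D B θ i l
    obtain ⟨hN1, hN2⟩ := hN0 N0 le_rfl
    refine ⟨n, hn0, ?_⟩
    have hcard : ∀ x ∈ X, (t * t + 1) * ((24 * t) ^ θ.k * (4 * t)) ≤ (blkD D N0 x l).card := by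
      intro x hx
      obtain ⟨hxl, hx2⟩ := hX x hx
      rw [blkD_card D N0 x l (by rw [hxl]; exact hN1)]
      rw [hMPe, ← ht] at hx2
      refine hx2.trans ?_
      -- inject the slice into the block
      refine Finset.card_le_card_of_surjOn (fun j => x ++ bitsOf l j) ?_
      intro w hw
      rw [Finset.mem_coe, Finset.mem_filter] at hw
      obtain ⟨hw1, hw2⟩ := hw
      have hwn := slice_length D hw1
      obtain ⟨j, hj, hjw⟩ := exists_bitsOf (w.drop i)
      have hdl : (w.drop i).length = l := by rw [List.length_drop, hwn]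
      rw [hdl] at hj hjw
      have hw3 : x ++ bitsOf l j = w := by
        rw [hjw, ← hw2, List.take_append_drop]
      refine ⟨j, ?_, hw3⟩
      rw [Finset.mem_coe, Finset.mem_filter, Finset.mem_range]
      refine ⟨hj, ?_⟩
      rw [hw3]
      unfold slice at hw1
      exact (Finset.mem_filter.1 hw1).2
    have h1 := evD_bound D B θ (N := N0) (i := i) (l := l) (n := n) (t := t) X
      (fun x hx => (hX x hx).1) (by omega) ht hXc hcard
    have h2 : EasyD D B θ ⊆ {R : Oracle | EvD D B θ N0 i l X (pre N0 R)} :=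
      fun R hR => hN2 R hR X (fun x hx => (hX x hx).1)
    refine (measure_mono h2).trans ((meas_le N0 _).trans ?_)
    apply ENNReal.ofReal_le_ofReal
    refine le_trans (le_of_eq ?_) h1
    congr 1
  -- let `n` tend to infinity
  have hlim : Filter.Tendsto (fun n : ℕ => ENNReal.ofReal ((θ.k + 2) * (1 / 2) ^ n))
      Filter.atTop (nhds 0) := by
    rw [← ENNReal.ofReal_zero]
    apply ENNReal.tendsto_ofReal
    have h1 := (tendsto_pow_atTop_nhds_zero_of_lt_one (r := (1 / 2 : ℝ)) (by norm_num)
      (by norm_num)).const_mul ((θ.k : ℝ) + 2)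
    rw [mul_zero] at h1
    exact h1
  have hle : ∀ n0 : ℕ, randomOracle (EasyD D B θ) ≤
      ENNReal.ofReal ((θ.k + 2) * (1 / 2) ^ n0) := by
    intro n0
    obtain ⟨n, hn, h⟩ := key n0
    refine h.trans (ENNReal.ofReal_le_ofReal ?_)
    apply mul_le_mul_of_nonneg_left _ (by positivity)
    exact pow_le_pow_of_le_one (by norm_num) (by norm_num) hn
  exact le_antisymm (ge_of_tendsto' hlim hle) zero_le

theorem ae_patch (hD : ¬ Sparse D) : ∀ᵐ R ∂randomOracle,
    IsParityP (patch D R B) (cylLang (patch D R B)) ∧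
    IsPSPACE (patch D R B) (cylLang (patch D R B)) ∧
    ¬ IsPHpoly (patch D R B) (cylLang (patch D R B)) := by
  have h1 : ∀ᵐ R ∂randomOracle, ∀ θ : Par, R ∉ EasyD D B θ := by
    rw [ae_all_iff]
    intro θ
    rw [ae_iff]
    have : {R : Oracle | ¬ R ∉ EasyD D B θ} = EasyD D B θ := by
      ext R; simp
    rw [this]
    exact measure_easyD D B hD θ
  filter_upwards [h1] with R hR
  refine ⟨cylLang_parity _, cylLang_pspace _, fun h => ?_⟩
  obtain ⟨θ, hθ⟩ := mem_easyD_of_phpoly D B h
  exact hR θ hθ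

end Pool.Agent.H249R3.Sub
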