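import Pool.Agent.H620R2.Gauge.P
import Pool.Agent.H620R2.Gauge.Event
import Pool.Agent.H249R3.Sub.Defs

/-!
# The parity of the number of elements of the oracle with a given prefix and a given length
-/

namespace Pool.Agent.H249R3.Sub

open Pool.Agent.NPC Pool.Agent.H622R2 Pool.Agent.H620R2.Gauge

/-- `⟨x, u⟩` is in the language if the number of elements of the oracle of length `|x| + |u|` with
prefix `x` is odd. -/
def cylLang (A : Oracle) : Set (List Bool) :=
  {z | Odd ((Finset.range (2 ^ (unpair z).2.length)).filter
    (fun j => A ((unpair z).1 ++ bitsOf (unpair z).2.length j) = true)).card}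

namespace CTask

open PTask

/-- the next action -/
def act (y : List Bool) : List Bool :=
  match (unpair y).2 with
  | [] => false :: ((unpair (unpair y).1).1 ++ zeros (unpair (unpair y).1).2)
  | c :: t => bif c then false :: ((unpair (unpair y).1).1 ++ t.tail) else true :: t

/-- the new content of the memory -/
def next (y : List Bool) : List Bool :=
  match (unpair y).2.tail with
  | [] => upd (unpair (unpair y).1).2 ((unpair y).2.head?.getD false)
      (zeros (unpair (unpair y).1).2)
  | _ :: t => upd (unpair (unpair y).1).2
      (((unpair y).2.head?.getD false) ^^ (t.head?.getD false)) t.tail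

theorem act_pair (z s : List Bool) : act (pairBits z s) =
    match s with
    | [] => false :: ((unpair z).1 ++ zeros (unpair z).2)
    | c :: t => bif c then false :: ((unpair z).1 ++ t.tail) else true :: t := by
  unfold act
  rw [unpair_pairBits]

theorem next_pair (z s : List Bool) (b : Bool) : next (pairBits z (b :: s)) =
    match s with
    | [] => upd (unpair z).2 b (zeros (unpair z).2)
    | _ :: t => upd (unpair z).2 (b ^^ (t.head?.getD false)) t.tail := by
  unfold next
  rw [unpair_pairBits]
  rfl

theorem poly_x : Poly (fun y => (unpair (unpair y).1).1) := poly_fst.comp poly_fst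

theorem poly_u : Poly (fun y => (unpair (unpair y).1).2) := poly_snd.comp poly_fst

theorem poly_act : Poly act := by
  refine (Poly.listCases (l := fun y => (unpair y).2)
    (g := fun y => false :: ((unpair (unpair y).1).1 ++ zeros (unpair (unpair y).1).2))
    (h := fun y c t => bif c then false :: ((unpair (unpair y).1).1 ++ t.tail) else true :: t)
    poly_snd ?_ ?_).congr fun y => by
      unfold act
      cases (unpair y).2 <;> rfl
  · exact Poly.cons (NPC.Poly.const false) (Poly.append poly_x (poly_zeros.comp poly_u))
  · refine Poly.cond (Poly.fst (Poly.snd Poly.id)) (Poly.cons (NPC.Poly.const false)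
      (Poly.append (poly_x.comp (Poly.fst Poly.id)) (Poly.tail (Poly.snd (Poly.snd Poly.id)))))
      (Poly.cons (NPC.Poly.const true) (Poly.snd (Poly.snd Poly.id)))

theorem poly_next : Poly next := by
  refine (Poly.listCases (l := fun y => (unpair y).2.tail)
    (g := fun y => upd (unpair (unpair y).1).2 ((unpair y).2.head?.getD false)
      (zeros (unpair (unpair y).1).2))
    (h := fun y _ t => upd (unpair (unpair y).1).2
      (((unpair y).2.head?.getD false) ^^ (t.head?.getD false)) t.tail)
    (Poly.tail poly_snd) ?_ ?_).congr fun y => by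
      unfold next
      cases (unpair y).2.tail <;> rfl
  · exact poly_upd poly_u (poly_headD poly_snd) (poly_zeros.comp poly_u)
  · exact poly_upd (poly_u.comp (Poly.fst Poly.id))
      (Poly.xor ((poly_headD poly_snd).comp (Poly.fst Poly.id))
        (poly_headD (Poly.snd (Poly.snd Poly.id)))) (Poly.tail (Poly.snd (Poly.snd Poly.id)))

/-- the algorithm -/
def alg : SAlg where
  act := act
  act_poly := polyTime_of_poly_list poly_act
  next := next
  next_poly := polyTime_of_poly_list poly_next

/-- the parity of the first `j` answers -/
def parity (A : Oracle) (x : List Bool) (n j : ℕ) : Bool :=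
  decide (Odd ((Finset.range j).filter (fun i => A (x ++ bitsOf n i) = true)).card)

theorem parity_zero (A : Oracle) (x : List Bool) (n : ℕ) : parity A x n 0 = false := by
  simp [parity]

theorem parity_succ (A : Oracle) (x : List Bool) (n j : ℕ) :
    parity A x n (j + 1) = (A (x ++ bitsOf n j) ^^ parity A x n j) := by
  unfold parity
  rw [Finset.range_add_one, Finset.filter_insert]
  cases h : A (x ++ bitsOf n j)
  · simp
  · rw [if_pos rfl, Finset.card_insert_of_notMem (by simp), Bool.true_xor, ← decide_not,
      decide_eq_decide, Nat.odd_add_one]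

/-- the content of the memory after `j` rounds -/
def cont (A : Oracle) (x : List Bool) (n j : ℕ) : List Bool :=
  if j = 0 then [] else if j < 2 ^ n then
    true :: parity A x n j :: bitsOf n j else [false, parity A x n j]

theorem act_cont (A : Oracle) (z : List Bool) {j : ℕ} (hj : j < 2 ^ (unpair z).2.length) :
    act (pairBits z (cont A (unpair z).1 (unpair z).2.length j)) =
      false :: ((unpair z).1 ++ bitsOf (unpair z).2.length j) := by
  rw [act_pair]
  unfold cont
  by_cases h : j = 0
  · subst h
    rw [if_pos rfl]
    simp only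
    rw [zeros_eq, (bitsOf_eq_zero (unpair z).2.length 0).2 (Nat.zero_mod _)]
  · rw [if_neg h, if_pos hj]
    simp

theorem upd_eq (A : Oracle) (x u : List Bool) {j : ℕ} (hj : j < 2 ^ u.length) :
    upd u (A (x ++ bitsOf u.length j) ^^ parity A x u.length j) (bitsOf u.length j) =
      cont A x u.length (j + 1) := by
  unfold upd cont
  rw [inc_bitsOf, zeros_eq, ← parity_succ, if_neg (Nat.succ_ne_zero j)]
  simp only [bitsOf_eq_zero]
  by_cases h : j + 1 < 2 ^ u.length
  · rw [if_pos h, if_neg]
    rw [Nat.mod_eq_of_lt h]
    omega
  · have h1 : j + 1 = 2 ^ u.length := by omega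
    rw [if_neg h, if_pos]
    rw [h1, Nat.mod_self]

theorem next_cont (A : Oracle) (z : List Bool) {j : ℕ} (hj : j < 2 ^ (unpair z).2.length) :
    next (pairBits z (A ((unpair z).1 ++ bitsOf (unpair z).2.length j) ::
      cont A (unpair z).1 (unpair z).2.length j)) =
      cont A (unpair z).1 (unpair z).2.length (j + 1) := by
  rw [next_pair, ← upd_eq A _ _ hj]
  by_cases h : j = 0
  · subst h
    rw [cont, if_pos rfl]
    simp only
    rw [zeros_eq, ← (bitsOf_eq_zero (unpair z).2.length 0).2 (Nat.zero_mod _), parity_zero,
      Bool.xor_false]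
  · rw [cont, if_neg h, if_pos hj]
    simp

theorem act_last (A : Oracle) (z : List Bool) :
    act (pairBits z (cont A (unpair z).1 (unpair z).2.length (2 ^ (unpair z).2.length))) =
      [true, parity A (unpair z).1 (unpair z).2.length (2 ^ (unpair z).2.length)] := by
  rw [act_pair]
  unfold cont
  rw [if_neg (by positivity), if_neg (lt_irrefl _)]
  rfl

theorem reach_cont (A : Oracle) (z : List Bool) : ∀ j, j ≤ 2 ^ (unpair z).2.length →
    alg.Reach A z (cont A (unpair z).1 (unpair z).2.length j)
  | 0, _ => by
    have h : cont A (unpair z).1 (unpair z).2.length 0 = [] := if_pos rfl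
    rw [h]
    exact SAlg.Reach.start
  | j + 1, h => by
    have h1 := reach_cont A z j (by omega)
    have h2 := SAlg.Reach.step h1 (q := (unpair z).1 ++ bitsOf (unpair z).2.length j)
      (act_cont A z (Nat.lt_of_succ_le h))
    have h3 : alg.next (pairBits z (A ((unpair z).1 ++ bitsOf (unpair z).2.length j) ::
      cont A (unpair z).1 (unpair z).2.length j)) =
      cont A (unpair z).1 (unpair z).2.length (j + 1) := next_cont A z (Nat.lt_of_succ_le h)
    rw [h3] at h2
    exact h2

theorem cont_of_reach (A : Oracle) (z : List Bool) {s : List Bool} (h : alg.Reach A z s) :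
    ∃ j, j ≤ 2 ^ (unpair z).2.length ∧ s = cont A (unpair z).1 (unpair z).2.length j := by
  induction h with
  | start => exact ⟨0, Nat.zero_le _, (if_pos rfl).symm⟩
  | step h1 h2 ih =>
    obtain ⟨j, hj, rfl⟩ := ih
    change act (pairBits z (cont A (unpair z).1 (unpair z).2.length j)) = _ at h2
    rcases Nat.lt_or_ge j (2 ^ (unpair z).2.length) with h | h
    · rw [act_cont A z h] at h2
      rw [List.cons.injEq] at h2
      refine ⟨j + 1, h, ?_⟩
      rw [← next_cont A z h, h2.2]
      rfl
    · have h3 : j = 2 ^ (unpair z).2.length := le_antisymm hj h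
      rw [h3, act_last] at h2
      simp at h2

theorem length_cont (A : Oracle) (x : List Bool) (n j : ℕ) :
    (cont A x n j).length ≤ n + 2 := by
  unfold cont
  split_ifs
  · simp
  · simp [len_bitsOf]
  · simp

end CTask

theorem unpair_snd_length_le : ∃ q : Polynomial ℕ, ∀ z : List Bool,
    (unpair z).2.length ≤ q.eval z.length := by
  obtain ⟨q, hq⟩ := (PTask.poly_snd).sz_le
  refine ⟨q.comp (Polynomial.C 4 * Polynomial.X + Polynomial.C 1), fun z => ?_⟩
  have h3 := length_lt_sz (unpair z).2
  have h4 := hq z
  rw [Polynomial.eval_comp]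
  refine h3.le.trans (h4.trans (eval_mono _ ?_))
  have h5 := sz_listBool_le z
  simpa using h5

theorem cylLang_pspace (A : Oracle) : IsPSPACE A (cylLang A) := by
  obtain ⟨q, hq⟩ := unpair_snd_length_le
  refine ⟨CTask.alg, q + Polynomial.C 2, fun z => ⟨fun s hs => ?_, ?_⟩⟩
  · obtain ⟨j, -, rfl⟩ := CTask.cont_of_reach A z hs
    have h1 := CTask.length_cont A (unpair z).1 (unpair z).2.length j
    have h2 := hq z
    simp only [Polynomial.eval_add, Polynomial.eval_C]
    omega
  · refine ⟨CTask.cont A (unpair z).1 (unpair z).2.length (2 ^ (unpair z).2.length),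
      [CTask.parity A (unpair z).1 (unpair z).2.length (2 ^ (unpair z).2.length)],
      CTask.reach_cont A z _ le_rfl, CTask.act_last A z, ?_⟩
    simp [cylLang, CTask.parity]

theorem cylLang_parity (A : Oracle) : IsParityP A (cylLang A) := by
  obtain ⟨q, hq⟩ := unpair_snd_length_le
  have hx : Poly (fun y => (unpair (unpair y).1).1) := CTask.poly_x
  have hu : Poly (fun y => (unpair (unpair y).1).2) := CTask.poly_u
  have hw : Poly (fun y => (unpair y).2) := PTask.poly_snd
  -- `V ⟨z, w⟩ = [A (x ++ w)]` if `|w| = |u|`
  refine ⟨fun y => if (unpair y).2.length = (unpair (unpair y).1).2.length then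
    [A ((unpair (unpair y).1).1 ++ (unpair y).2)] else [], q, ?_, ?_⟩
  · have h1 := IsFP.tt (A := A)
      (Q := fun y => [(unpair (unpair y).1).1 ++ (unpair y).2])
      (H := fun p => if (unpair p.1).2.length = (unpair (unpair p.1).1).2.length then p.2 else [])
      (Poly.cons (Poly.append hx hw) (NPC.Poly.const []))
      (Poly.ite (Poly.decide_eq (Poly.length (hw.comp (Poly.fst Poly.id)))
        (Poly.length (hu.comp (Poly.fst Poly.id)))) (Poly.snd Poly.id) (NPC.Poly.const []))
    exact h1
  · intro z
    unfold cylLang
    rw [Set.mem_ofPred_eq]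
    have hcard : ((Finset.range (2 ^ (unpair z).2.length)).filter
        (fun j => A ((unpair z).1 ++ bitsOf (unpair z).2.length j) = true)).card =
        {w : List Bool | w.length ≤ q.eval z.length ∧
          (if (unpair (pairBits z w)).2.length = (unpair (unpair (pairBits z w)).1).2.length then
            [A ((unpair (unpair (pairBits z w)).1).1 ++ (unpair (pairBits z w)).2)]
            else []) = [true]}.ncard := by
      have hset : {w : List Bool | w.length ≤ q.eval z.length ∧
          (if (unpair (pairBits z w)).2.length = (unpair (unpair (pairBits z w)).1).2.length then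
            [A ((unpair (unpair (pairBits z w)).1).1 ++ (unpair (pairBits z w)).2)]
            else []) = [true]} =
          (fun j => bitsOf (unpair z).2.length j) '' (((Finset.range (2 ^ (unpair z).2.length)).filter
        (fun j => A ((unpair z).1 ++ bitsOf (unpair z).2.length j) = true) : Finset ℕ) : Set ℕ) := by
        ext w
        rw [Set.mem_ofPred_eq, unpair_pairBits]
        simp only [Set.mem_image, Finset.coe_filter, Finset.mem_range, Set.mem_ofPred_eq]
        constructor
        · rintro ⟨_, h2⟩
          split_ifs at h2 with h3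
          · obtain ⟨j, hj, hjw⟩ := exists_bitsOf w
            rw [h3] at hj hjw
            refine ⟨j, ⟨hj, ?_⟩, hjw⟩
            rw [hjw]
            simpa using h2
        · rintro ⟨j, ⟨_, h2⟩, rfl⟩
          rw [length_bitsOf]
          exact ⟨hq z, by rw [if_pos rfl, h2]⟩
      rw [hset, Set.InjOn.ncard_image ?_, Set.ncard_coe_finset]
      intro j hj j' hj' h
      simp only [Finset.coe_filter, Finset.mem_range, Set.mem_ofPred_eq] at hj hj'
      exact bitsOf_inj hj.1 hj'.1 h
    rw [hcard]

end Pool.Agent.H249R3.Sub
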