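import Pool.Agent.H249R3.Sub.Leaf
import Pool.Agent.H249R3.Sub.Pspace

/-!
# The probability that a hierarchy algorithm with advice is right for many inputs
-/

namespace Pool.Agent.H249R3.Sub

open Pool.Agent.NPC Finset H568R2 Pool.Agent.H676 Pool.Agent.H620R2.Gauge
  Pool.Agent.H622R2

theorem par_insert {I : Type*} [DecidableEq I] (B : Finset I) (g : I) (hg : g ∉ B)
    (a : I → Bool) : par (insert g B) a = (a g ^^ par B a) := by
  unfold par
  rw [Finset.filter_insert]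
  cases h : a g
  · simp
  · rw [if_pos rfl, Finset.card_insert_of_notMem (by simp [hg]), Bool.true_xor, ← decide_not,
      decide_eq_decide, Nat.odd_add_one]

theorem par_congr {I : Type*} (B : Finset I) {a b : I → Bool} (h : ∀ i ∈ B, a i = b i) :
    par B a = par B b := by
  unfold par
  rw [Finset.filter_congr fun i hi => by rw [h i hi]]

theorem exists_flip {ι I : Type*} [DecidableEq I] (X : Finset ι) (Bk : ι → Finset I)
    (hB : ∀ x ∈ X, ∀ x' ∈ X, x ≠ x' → Disjoint (Bk x) (Bk x')) (hne : ∀ x ∈ X, (Bk x).Nonempty)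
    (c : ι → Bool) : ∃ e : I → Bool, ∀ x ∈ X, ∀ a, par (Bk x) (xorv e a) =
      (par (Bk x) a ^^ c x) := by
  classical
  rcases isEmpty_or_nonempty I with hI | hI
  · refine ⟨fun _ => false, fun x hx a => ?_⟩
    obtain ⟨i, _⟩ := hne x hx
    exact hI.elim i
  choose! g hg using hne
  refine ⟨fun i => decide (∃ x ∈ X, c x = true ∧ g x = i), fun x hx a => ?_⟩
  have he : ∀ i ∈ Bk x, (decide (∃ x ∈ X, c x = true ∧ g x = i)) =
      decide (c x = true ∧ g x = i) := by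
    intro i hi
    rw [decide_eq_decide]
    constructor
    · rintro ⟨x', hx', h1, h2⟩
      by_cases hxx : x' = x
      · rw [← hxx]; exact ⟨h1, h2⟩
      · exfalso
        have h3 := hB x' hx' x hx hxx
        rw [Finset.disjoint_left] at h3
        exact h3 (hg x' hx') (h2 ▸ hi)
    · rintro ⟨h1, h2⟩
      exact ⟨x, hx, h1, h2⟩
  have hins : Bk x = insert (g x) ((Bk x).erase (g x)) :=
    (Finset.insert_erase (hg x hx)).symm
  have hno : g x ∉ (Bk x).erase (g x) := Finset.notMem_erase _ _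
  have h1 : par ((Bk x).erase (g x)) (xorv (fun i => decide (∃ x ∈ X, c x = true ∧ g x = i)) a) =
      par ((Bk x).erase (g x)) a := by
    apply par_congr
    intro i hi
    have hi' := Finset.mem_of_mem_erase hi
    unfold xorv
    beta_reduce
    rw [he i hi']
    have : ¬ (c x = true ∧ g x = i) := by
      rintro ⟨_, h⟩
      exact Finset.ne_of_mem_erase hi h.symm
    rw [decide_eq_false this, Bool.false_xor]
  have h2 : (xorv (fun i => decide (∃ x ∈ X, c x = true ∧ g x = i)) a) (g x) =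
      (c x ^^ a (g x)) := by
    unfold xorv
    beta_reduce
    rw [he _ (hg x hx)]
    simp
  rw [hins, par_insert _ _ hno, par_insert _ _ hno, h1, h2]
  cases c x <;> cases a (g x) <;> cases par ((Bk x).erase (g x)) a <;> rfl

/-- the input for the prefix `x` and the length `|x| + l` -/
def inp (x : List Bool) (l : ℕ) : List Bool := pairBits x (List.replicate l true)

theorem length_inp (x : List Bool) (l : ℕ) : (inp x l).length = 2 * x.length + 1 + l := by
  unfold inp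
  rw [length_pairBits, List.length_replicate]

theorem mem_cylLang_inp (A : Oracle) (x : List Bool) (l : ℕ) : inp x l ∈ cylLang A ↔
    Odd ((Finset.range (2 ^ l)).filter (fun j => A (x ++ bitsOf l j) = true)).card := by
  unfold cylLang inp
  rw [Set.mem_ofPred_eq, unpair_pairBits]
  simp only [List.length_replicate]

variable (D : Set (List Bool)) (B : Oracle)

/-- the event for advice of length `c` -/
def EvX (θ : Par) (N i l c : ℕ) (X : Finset (List Bool)) (a : Fin N → Bool) : Prop :=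
  ∃ h ∈ strsOf c, ∀ x ∈ X, QF (θ.m (2 * i + 1 + l) c) (leafP D B θ.M N) θ.k true
    (pairBits (inp x l) h) a = (par (blkD D N x l) a ^^ cst D B x l)

open Classical in
theorem evX_bound (θ : Par) {N i l c t r s : ℕ} (X : Finset (List Bool))
    (hX : ∀ x ∈ X, x.length = i) (hc : c ≤ θ.p'.eval (2 * i + 1 + l)) (ht : 1 ≤ t)
    (hP : θ.M.p.eval (θ.L.eval (2 * i + 1 + l)) ≤ t)
    (hr : X.card * t ≤ r) (hs0 : 1 ≤ s) (hs : ∀ x ∈ X, (r + 1) * s ≤ (blkD D N x l).card) :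
    Ex unif (fun a : Fin N → Bool => if EvX D B θ N i l c X a then (1 : ℝ) else 0) ≤
      θ.k * 2 ^ (θ.L.eval (2 * i + 1 + l) + 2) * (1 / 2) ^ (t + 1) +
      X.card * ((r + 1) * (1 - (1 / (24 * (t : ℝ))) ^ θ.k) ^ s) +
      2 ^ c * (1 / 2) ^ X.card := by
  have htR : (1 : ℝ) ≤ (t : ℝ) := by exact_mod_cast ht
  set q : ℝ := 1 / (24 * t) with hq
  have hq0 : 0 ≤ q := by positivity
  have hq1 : q ≤ 1 / 3 := by
    rw [hq, div_le_div_iff₀ (by positivity) (by norm_num)]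
    linarith
  have hdisj : ∀ x ∈ X, ∀ x' ∈ X, x ≠ x' → Disjoint (blkD D N x l) (blkD D N x' l) := by
    intro x hx x' hx' hne
    exact blkD_disj D N x x' l (by rw [hX x hx, hX x' hx']) hne
  have hnon : ∀ x ∈ X, (blkD D N x l).Nonempty := by
    intro x hx
    rw [← Finset.card_pos]
    have h1 := hs x hx
    have h2 : 0 < (r + 1) * s := by positivity
    omega
  obtain ⟨e, he⟩ := exists_flip X (fun x => blkD D N x l) hdisj hnon (fun x => cst D B x l)
  set n := 2 * i + 1 + l with hn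
  have hlen := θ.len_le hc
  have h1 := comb (I := Fin N) ht hq0 hq1 (θ.m n c) (fun y a => leafP D B θ.M N y (xorv e a)) θ.k
    (2 * n + 1 + c) (by
      intro y hy
      apply dtr_xorv
      refine (dtr_leafP D B θ.M N y).mono ?_
      calc θ.M.p.eval y.length ≤ θ.M.p.eval (θ.L.eval n) := eval_mono _ (by omega)
        _ ≤ t := hP) X (fun x => blkD D N x l) hdisj (strsOf c)
      (fun x h => pairBits (inp x l) h) (by
      intro x hx h hh
      obtain ⟨i, _, rfl⟩ := Finset.mem_image.1 hh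
      rw [length_pairBits, length_inp, hX x hx, length_bitsOf]) r s hr hs
  have h2 : Ex unif (fun a : Fin N → Bool => if EvX D B θ N i l c X a then (1 : ℝ) else 0) =
      Ex unif (fun a : Fin N → Bool =>
      if ∃ h ∈ strsOf c, ∀ x ∈ X, QF (θ.m n c) (fun y a => leafP D B θ.M N y (xorv e a)) θ.k true
        (pairBits (inp x l) h) a = par (blkD D N x l) a then (1 : ℝ) else 0) := by
    rw [← ex_xorv e]
    congr 1
    funext a
    congr 1
    apply propext
    unfold EvX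
    refine exists_congr fun h => and_congr_right fun _ => forall_congr' fun x =>
      forall_congr' fun hx => ?_
    rw [qf_xorv]
    have h3 := he x hx (xorv e a)
    simp only [xorv_xorv] at h3
    rw [h3]
  rw [h2]
  refine h1.trans ?_
  have hqt : 12 * (t : ℝ) * q = 1 / 2 := by
    rw [hq]; field_simp; norm_num
  rw [hqt]
  have h3 : (2 : ℝ) ^ (2 * n + 1 + c + θ.k * (2 * θ.m n c + 1) + 2) ≤ 2 ^ (θ.L.eval n + 2) :=
    pow_le_pow_right₀ (by norm_num) (by omega)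
  have h4 : ((strsOf c).card : ℝ) ≤ 2 ^ c := by exact_mod_cast card_strsOf c
  have h6 : (0 : ℝ) ≤ (1 / 2) ^ (t + 1) := by positivity
  have h7 : (0 : ℝ) ≤ (1 / 2) ^ X.card := by positivity
  have h8 : (θ.k : ℝ) * 2 ^ (2 * n + 1 + c + θ.k * (2 * θ.m n c + 1) + 2) * (1 / 2) ^ (t + 1) ≤
      θ.k * 2 ^ (θ.L.eval n + 2) * (1 / 2) ^ (t + 1) :=
    mul_le_mul_of_nonneg_right (mul_le_mul_of_nonneg_left h3 (by positivity)) h6
  have h9 : ((strsOf c).card : ℝ) * (1 / 2) ^ X.card ≤ 2 ^ c * (1 / 2) ^ X.card :=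
    mul_le_mul_of_nonneg_right h4 h7
  linarith

/-- the event -/
def EvD (θ : Par) (N i l : ℕ) (X : Finset (List Bool)) (a : Fin N → Bool) : Prop :=
  ∃ c ≤ θ.p'.eval (2 * i + 1 + l), EvX D B θ N i l c X a

/-- the size of the parameters -/
noncomputable def TP (θ : Par) : Polynomial ℕ :=
  (θ.L + 2 * θ.p' + θ.M.p.comp θ.L).comp (2 * Polynomial.X + 1) + Polynomial.X + 4

theorem TP_ge (θ : Par) {n m : ℕ} (h : m ≤ 2 * n + 1) :
    θ.L.eval m + 2 * θ.p'.eval m + θ.M.p.eval (θ.L.eval m) + n + 4 ≤ (TP θ).eval n := by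
  have h1 : (TP θ).eval n = (θ.L.eval (2 * n + 1) + 2 * θ.p'.eval (2 * n + 1) +
      θ.M.p.eval (θ.L.eval (2 * n + 1))) + n + 4 := by
    simp [TP, Polynomial.eval_comp]
  rw [h1]
  have h2 := eval_mono θ.L h
  have h3 := eval_mono θ.p' h
  have h4 := eval_mono θ.M.p h2
  omega

theorem pow_cancel (a b n : ℕ) (κ : ℝ) :
    (2 : ℝ) ^ a * (κ * 2 ^ b * (1 / 2) ^ (a + b + n)) = κ * (1 / 2) ^ n := by
  have e1 : ∀ j : ℕ, (2 : ℝ) ^ j * (1 / 2) ^ j = 1 := by
    intro j; rw [← mul_pow]; norm_num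
  rw [pow_add, pow_add]
  calc (2 : ℝ) ^ a * (κ * 2 ^ b * ((1 / 2) ^ a * (1 / 2) ^ b * (1 / 2) ^ n)) =
      κ * (2 ^ a * (1 / 2) ^ a) * (2 ^ b * (1 / 2) ^ b) * (1 / 2) ^ n := by ring
    _ = κ * (1 / 2) ^ n := by rw [e1, e1]; ring

theorem term_two {t k p : ℕ} {n : ℕ} (ht : p + n ≤ t) (ht1 : 1 ≤ t) :
    (2 : ℝ) ^ p * ((t : ℝ) * (((t * t : ℕ) : ℝ) + 1) *
      (1 - (1 / (24 * (t : ℝ))) ^ k) ^ ((24 * t) ^ k * (4 * t))) ≤ (1 / 2) ^ n := by
  have htR : (1 : ℝ) ≤ (t : ℝ) := by exact_mod_cast ht1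
  set q : ℝ := 1 / (24 * t) with hq
  have hq0 : 0 < q := by positivity
  have hq1 : q ≤ 1 := by
    rw [hq, div_le_one (by positivity)]
    linarith
  have hqk0 : 0 < q ^ k := by positivity
  have hqk1 : q ^ k ≤ 1 := pow_le_one₀ hq0.le hq1
  have h1 : (1 - q ^ k) ^ ((24 * t) ^ k * (4 * t)) ≤ (1 / 2) ^ (4 * t) := by
    have h2 : (1 - q ^ k) ≤ Real.exp (-(q ^ k)) := by
      have := Real.add_one_le_exp (-(q ^ k))
      linarith
    have h3 : (1 - q ^ k) ^ ((24 * t) ^ k * (4 * t)) ≤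
        Real.exp (-(q ^ k)) ^ ((24 * t) ^ k * (4 * t)) :=
      pow_le_pow_left₀ (by linarith) h2 _
    refine h3.trans ?_
    rw [← Real.exp_nat_mul]
    have h4 : (((24 * t) ^ k * (4 * t) : ℕ) : ℝ) * -(q ^ k) = -((4 * t : ℕ) : ℝ) := by
      have h5 : ((24 * t : ℕ) : ℝ) ^ k * q ^ k = 1 := by
        rw [← mul_pow, hq]
        push_cast
        rw [mul_one_div_cancel (by positivity), one_pow]
      push_cast at h5 ⊢
      calc ((24 * (t:ℝ)) ^ k * (4 * t)) * -(q ^ k) = -(((24 * (t:ℝ)) ^ k * q ^ k) * (4 * t)) := by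
            ring
        _ = -(4 * (t : ℝ)) := by rw [h5]; ring
    rw [h4, Real.exp_neg, one_div, inv_pow]
    apply inv_anti₀ (by positivity)
    rw [← Real.exp_one_pow]
    apply pow_le_pow_left₀ (by norm_num)
    have := Real.add_one_le_exp (1 : ℝ)
    linarith
  have h2 : (t : ℝ) * (((t * t : ℕ) : ℝ) + 1) ≤ 2 ^ (3 * t) := by
    have e1 : t + 1 ≤ 2 ^ t := Nat.lt_two_pow_self
    have e2 : t * (t * t + 1) ≤ 2 ^ (3 * t) := by
      calc t * (t * t + 1) ≤ 2 ^ t * ((t + 1) * (t + 1)) := by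
            apply Nat.mul_le_mul (by omega)
            nlinarith
        _ ≤ 2 ^ t * (2 ^ t * 2 ^ t) := Nat.mul_le_mul_left _ (Nat.mul_le_mul e1 e1)
        _ = 2 ^ (3 * t) := by rw [← pow_add, ← pow_add]; congr 1; ring
    exact_mod_cast e2
  have h3 : (0 : ℝ) ≤ (1 - q ^ k) ^ ((24 * t) ^ k * (4 * t)) := pow_nonneg (by linarith) _
  calc (2 : ℝ) ^ p * ((t : ℝ) * (((t * t : ℕ) : ℝ) + 1) *
      (1 - q ^ k) ^ ((24 * t) ^ k * (4 * t))) ≤ 2 ^ p * (2 ^ (3 * t) * (1 / 2) ^ (4 * t)) := by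
        apply mul_le_mul_of_nonneg_left _ (by positivity)
        exact mul_le_mul h2 h1 h3 (by positivity)
    _ = 2 ^ p * (1 / 2) ^ t := by
        congr 1
        have : (1 / 2 : ℝ) ^ (4 * t) = (1 / 2) ^ (3 * t) * (1 / 2) ^ t := by
          rw [← pow_add]; congr 1; ring
        rw [this, ← mul_assoc, ← mul_pow]
        norm_num
    _ ≤ 2 ^ p * (1 / 2) ^ (p + n) := by
        apply mul_le_mul_of_nonneg_left _ (by positivity)
        exact pow_le_pow_of_le_one (by norm_num) (by norm_num) ht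
    _ = (1 / 2) ^ n := by
        rw [pow_add, ← mul_assoc, ← mul_pow]
        norm_num

open Classical in
theorem evD_bound (θ : Par) {N i l n t : ℕ} (X : Finset (List Bool))
    (hX : ∀ x ∈ X, x.length = i) (hn : 2 * i + 1 + l ≤ 2 * n + 1) (ht : t = (TP θ).eval n)
    (hXt : X.card = t)
    (hs : ∀ x ∈ X, (t * t + 1) * ((24 * t) ^ θ.k * (4 * t)) ≤ (blkD D N x l).card) :
    Ex unif (fun a : Fin N → Bool => if EvD D B θ N i l X a then (1 : ℝ) else 0) ≤
      (θ.k + 2) * (1 / 2) ^ n := by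
  have hT := TP_ge θ hn
  rw [← ht] at hT
  set m := 2 * i + 1 + l with hm
  have ht1 : 1 ≤ t := by omega
  have hMP : θ.M.p.eval (θ.L.eval m) ≤ t := by omega
  have hc : ∀ c ∈ Finset.range (θ.p'.eval m + 1), Ex unif (fun a : Fin N → Bool =>
      if EvX D B θ N i l c X a then (1 : ℝ) else 0) ≤
      θ.k * 2 ^ (θ.L.eval m + 2) * (1 / 2) ^ (t + 1) +
      (t : ℝ) * (((t * t : ℕ) : ℝ) + 1) *
      (1 - (1 / (24 * (t : ℝ))) ^ θ.k) ^ ((24 * t) ^ θ.k * (4 * t)) +
      2 ^ θ.p'.eval m * (1 / 2) ^ t := by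
    intro c hc
    rw [Finset.mem_range, Nat.lt_succ_iff] at hc
    have h1 := evX_bound D B θ (N := N) (i := i) (l := l) (c := c) (t := t) (r := t * t)
      (s := (24 * t) ^ θ.k * (4 * t)) X hX hc ht1 hMP (by rw [hXt])
      (Nat.mul_pos (Nat.pow_pos (by omega)) (by omega)) hs
    refine h1.trans ?_
    rw [hXt]
    have h2 : (2 : ℝ) ^ c * (1 / 2) ^ t ≤ 2 ^ θ.p'.eval m * (1 / 2) ^ t :=
      mul_le_mul_of_nonneg_right (pow_le_pow_right₀ (by norm_num) hc) (by positivity)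
    linarith
  have hU : Ex unif (fun a : Fin N → Bool => if EvD D B θ N i l X a then (1 : ℝ) else 0) ≤
      ∑ c ∈ Finset.range (θ.p'.eval m + 1), Ex unif (fun a : Fin N → Bool =>
      if EvX D B θ N i l c X a then (1 : ℝ) else 0) := by
    rw [← Ex_sum]
    apply Ex_mono unif_nonneg
    intro a
    by_cases hE : EvD D B θ N i l X a
    · rw [if_pos hE]
      obtain ⟨c, hc, h⟩ := hE
      refine le_trans ?_ (Finset.single_le_sum (f := fun c =>
        if EvX D B θ N i l c X a then (1 : ℝ) else 0) (fun c _ => by positivity)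
        (Finset.mem_range.2 (Nat.lt_succ_of_le hc)))
      show 1 ≤ (if EvX D B θ N i l c X a then (1:ℝ) else 0)
      rw [if_pos h]
    · rw [if_neg hE]
      exact Finset.sum_nonneg fun c _ => by positivity
  refine hU.trans ((Finset.sum_le_sum hc).trans ?_)
  rw [Finset.sum_const, Finset.card_range, nsmul_eq_mul]
  have hp1 : ((θ.p'.eval m + 1 : ℕ) : ℝ) ≤ 2 ^ θ.p'.eval m := by
    have : θ.p'.eval m + 1 ≤ 2 ^ θ.p'.eval m := Nat.lt_two_pow_self
    exact_mod_cast this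
  have T2 := term_two (t := t) (k := θ.k) (p := θ.p'.eval m) (n := n) (by omega) ht1
  have T1 : (2 : ℝ) ^ θ.p'.eval m * (θ.k * 2 ^ (θ.L.eval m + 2) * (1 / 2) ^ (t + 1)) ≤
      θ.k * (1 / 2) ^ n := by
    have h1 : (1 / 2 : ℝ) ^ (t + 1) ≤ (1 / 2) ^ (θ.p'.eval m + (θ.L.eval m + 2) + n) :=
      pow_le_pow_of_le_one (by norm_num) (by norm_num) (by omega)
    calc (2 : ℝ) ^ θ.p'.eval m * (θ.k * 2 ^ (θ.L.eval m + 2) * (1 / 2) ^ (t + 1))
        ≤ 2 ^ θ.p'.eval m * (θ.k * 2 ^ (θ.L.eval m + 2) *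
          (1 / 2) ^ (θ.p'.eval m + (θ.L.eval m + 2) + n)) := by gcongr
      _ = θ.k * (1 / 2) ^ n := pow_cancel _ _ _ _
  have T3 : (2 : ℝ) ^ θ.p'.eval m * (2 ^ θ.p'.eval m * (1 / 2) ^ t) ≤ (1 / 2) ^ n := by
    have h1 : (1 / 2 : ℝ) ^ t ≤ (1 / 2) ^ (θ.p'.eval m + θ.p'.eval m + n) :=
      pow_le_pow_of_le_one (by norm_num) (by norm_num) (by omega)
    calc (2 : ℝ) ^ θ.p'.eval m * (2 ^ θ.p'.eval m * (1 / 2) ^ t)
        ≤ 2 ^ θ.p'.eval m * (2 ^ θ.p'.eval m * (1 / 2) ^ (θ.p'.eval m + θ.p'.eval m + n)) := by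
          gcongr
      _ = (1 / 2) ^ n := by
          have := pow_cancel (θ.p'.eval m) (θ.p'.eval m) n 1
          rw [one_mul, one_mul] at this
          exact this
  have hnn : (0 : ℝ) ≤ θ.k * 2 ^ (θ.L.eval m + 2) * (1 / 2) ^ (t + 1) +
      (t : ℝ) * (((t * t : ℕ) : ℝ) + 1) *
      (1 - (1 / (24 * (t : ℝ))) ^ θ.k) ^ ((24 * t) ^ θ.k * (4 * t)) +
      2 ^ θ.p'.eval m * (1 / 2) ^ t := by
    have htR : (1 : ℝ) ≤ (t : ℝ) := by exact_mod_cast ht1
    have hq1 : (1 / (24 * (t : ℝ))) ≤ 1 := by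
      rw [div_le_one (by positivity)]
      linarith
    have hqk1 : (1 / (24 * (t : ℝ))) ^ θ.k ≤ 1 := pow_le_one₀ (by positivity) hq1
    have : (0 : ℝ) ≤ (1 - (1 / (24 * (t : ℝ))) ^ θ.k) ^ ((24 * t) ^ θ.k * (4 * t)) :=
      pow_nonneg (by linarith) _
    positivity
  calc ((θ.p'.eval m + 1 : ℕ) : ℝ) * (θ.k * 2 ^ (θ.L.eval m + 2) * (1 / 2) ^ (t + 1) +
      (t : ℝ) * (((t * t : ℕ) : ℝ) + 1) *
      (1 - (1 / (24 * (t : ℝ))) ^ θ.k) ^ ((24 * t) ^ θ.k * (4 * t)) +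
      2 ^ θ.p'.eval m * (1 / 2) ^ t) ≤ 2 ^ θ.p'.eval m * (θ.k * 2 ^ (θ.L.eval m + 2) *
      (1 / 2) ^ (t + 1) + (t : ℝ) * (((t * t : ℕ) : ℝ) + 1) *
      (1 - (1 / (24 * (t : ℝ))) ^ θ.k) ^ ((24 * t) ^ θ.k * (4 * t)) +
      2 ^ θ.p'.eval m * (1 / 2) ^ t) := mul_le_mul_of_nonneg_right hp1 hnn
    _ ≤ (θ.k + 2) * (1 / 2) ^ n := by
        rw [mul_add, mul_add]
        linarith

end Pool.Agent.H249R3.Sub
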